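import Pool.Agent.Lib.MP_af28a5_co.ChordalConv
import Pool.Agent.Lib.MP_af28a5_co.ChordalAcyc

/-!
# Clique complexes of chordal graphs

The definitions `IsComplex`, `boundary`, `Acyclic`, `link`, `IsJAcyclic` and
`IsUnionOfIntervals` are in `Pool/Agent/Lib/MP_af28a5_co/Defs.lean`, the definitions
`cliqueComplex`, `IsPerfectElimination` and `IsUnionWithComplexBottoms` in
`Pool/Agent/Lib/MP_af28a5_co/Defs2.lean`.
-/

set_option autoImplicit false

namespace Pool.Agent.Results.MP_af28a5_co.ChordalGraphs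

open Pool.Agent.Lib.MP_af28a5_co

universe u

/-- Let `G` be a graph on `0, ..., n - 1` such that the smaller neighbours of every vertex are
pairwise adjacent, `Δ` its clique complex, `k` a field and `j ≥ 0`. Then the following are
equivalent: `Δ` is `j`-acyclic over `k`; `Δ` is a disjoint union of intervals of length `j + 1`;
`Δ` is a disjoint union of intervals of length `j + 1` whose bottoms form a subcomplex; there are
at least `j + 1` vertices and every vertex `v` has at least `min v (j + 1)` smaller neighbours. -/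
theorem result (k : Type u) [Field k] (n j : ℕ) (G : SimpleGraph (Fin n))
    (hG : IsPerfectElimination G) :
    (IsJAcyclic k j (cliqueComplex G) ↔ IsUnionOfIntervals (j + 1) (cliqueComplex G)) ∧
    (IsJAcyclic k j (cliqueComplex G) ↔ IsUnionWithComplexBottoms (j + 1) (cliqueComplex G)) ∧
    (IsJAcyclic k j (cliqueComplex G) ↔
      j + 1 ≤ n ∧ ∀ v : Fin n, min v.val (j + 1) ≤ {w : Fin n | w < v ∧ G.Adj v w}.ncard) := by
  have hcard : ∀ v : Fin n, {w : Fin n | w < v ∧ G.Adj v w}.ncard = (low G v).card := by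
    intro v
    rw [← Set.ncard_coe_finset]
    congr 1
    ext w
    rw [Finset.mem_coe, mem_low]
    rfl
  have h12 : IsJAcyclic k j (cliqueComplex G) →
      j + 1 ≤ n ∧ ∀ v : Fin n, min v.val (j + 1) ≤ (low G v).card := fun h =>
    ⟨le_card_of_jAcyclic (isComplex_cliqueComplex G) h, fun v => card_low_ge hG h v.val v rfl⟩
  have h23 : (j + 1 ≤ n ∧ ∀ v : Fin n, min v.val (j + 1) ≤ (low G v).card) →
      IsUnionWithComplexBottoms (j + 1) (cliqueComplex G) := fun h =>
    chordal_partition hG h.2 h.1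
  have h34 : IsUnionWithComplexBottoms (j + 1) (cliqueComplex G) →
      IsUnionOfIntervals (j + 1) (cliqueComplex G) := fun ⟨P, h1, h2, _⟩ => ⟨P, h1, h2⟩
  have h42 : IsUnionOfIntervals (j + 1) (cliqueComplex G) →
      j + 1 ≤ n ∧ ∀ v : Fin n, min v.val (j + 1) ≤ (low G v).card := low_of_union G hG
  have h21 : (j + 1 ≤ n ∧ ∀ v : Fin n, min v.val (j + 1) ≤ (low G v).card) →
      IsJAcyclic k j (cliqueComplex G) := fun h => jAcyclic_of_low k hG h.2 h.1
  simp only [hcard]
  exact ⟨⟨fun h => h34 (h23 (h12 h)), fun h => h21 (h42 h)⟩,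
    ⟨fun h => h23 (h12 h), fun h => h21 (h42 (h34 h))⟩, ⟨h12, h21⟩⟩

end Pool.Agent.Results.MP_af28a5_co.ChordalGraphs
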