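import Pool.Agent.Lib.MP_af28a5_co.Window

/-!
# Subcomplex bottoms: no acyclicity forces intervals of length two

The definitions `IsComplex`, `boundary`, `Acyclic`, `link`, `IsJAcyclic` and
`IsUnionOfIntervals` are in `Pool/Agent/Lib/MP_af28a5_co/Defs.lean`, the definition `IsShelling`
in `Pool/Agent/Lib/MP_af28a5_co/Defs3.lean`.
-/

set_option autoImplicit false

namespace Pool.Agent.Results.MP_af28a5_co.LengthTwo

open Pool.Agent.Lib.MP_af28a5_co

universe u

/-- For every `j` there is a shellable simplicial complex `Δ` of dimension `j + 2` which is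
`j`-acyclic over every field and a disjoint union of intervals of length `j + 1`, such that in
every partition of `Δ` into intervals (of any lengths) whose bottoms form a subcomplex, the
interval with bottom `∅` has length at most one. In particular `Δ` has no partition into intervals
of length at least two whose bottoms form a subcomplex. -/
theorem result (j : ℕ) :
    ∃ (n : ℕ) (Δ : Finset (Finset (Fin n))) (L : List (Finset (Fin n))),
      IsComplex Δ ∧ IsShelling (j + 3) Δ L ∧
      (∀ (k : Type u) [Field k], IsJAcyclic k j Δ) ∧ IsUnionOfIntervals (j + 1) Δ ∧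
      ∀ P : Finset (Finset (Fin n) × Finset (Fin n)), (∀ p ∈ P, p.1 ⊆ p.2 ∧ p.2 ∈ Δ) →
        (∀ H ∈ Δ, ∃! p, p ∈ P ∧ p.1 ⊆ H ∧ H ⊆ p.2) →
        (∀ p ∈ P, ∀ G, G ⊆ p.1 → ∃ q ∈ P, q.1 = G) →
        ∀ p ∈ P, p.1 = ∅ → p.2.card ≤ 1 := by
  obtain ⟨n, Δ, ⟨h1, h2, h3, L, hL⟩, h4⟩ := exists_good j
  exact ⟨n, Δ, L, h1, hL, fun k _ F hF hc => acyclic_of_exp (h2 F hF hc), h3,
    small_of_emptyTriangles h1 h4⟩

end Pool.Agent.Results.MP_af28a5_co.LengthTwo
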