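import Pool.Agent.Lib.MP_af28a5_co.Pack

/-!
# Partitioning `j`-acyclic complexes into boolean intervals: counterexamples for every `j ≥ 1`

The definitions `IsComplex`, `boundary`, `Acyclic`, `link`, `IsJAcyclic`,
`IsUnionOfIntervals`, `IsPacking` and `uncovered` are in `Pool/Agent/Lib/MP_af28a5_co/Defs.lean`.
-/

namespace Pool.Agent.Results.MP_af28a5_co.NoBooleanPartition

open Pool.Agent.Lib.MP_af28a5_co

universe u

/-- For every `j ≥ 1` there are arbitrarily large simplicial complexes of dimension at most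
`j + 2` which are `j`-acyclic over every field and in which every family of pairwise disjoint
intervals of lengths at least `j + 1` misses more than `1 / 29` of all faces. In particular they
are not disjoint unions of intervals of length `j + 1`. -/
theorem result : ∀ j : ℕ, 1 ≤ j → ∀ M : ℕ, ∃ (n : ℕ) (Δ : Finset (Finset (Fin n))),
    IsComplex Δ ∧ (∀ F ∈ Δ, F.card ≤ j + 3) ∧ M ≤ Δ.card ∧
    (∀ (k : Type u) [Field k], IsJAcyclic k j Δ) ∧
    (∀ P : Finset (Finset (Fin n) × Finset (Fin n)), IsPacking (j + 1) Δ P →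
      Δ.card < 29 * (uncovered Δ P).card) ∧
    ¬ IsUnionOfIntervals (j + 1) Δ := by
  intro j hj M
  obtain ⟨i, rfl⟩ : ∃ i, j = i + 1 := ⟨j - 1, by omega⟩
  obtain ⟨n, Δ, h1, h2, h3, h4, h5⟩ := exists_robust M i
  exact ⟨n, Δ, h1, h2, h4, fun k _ F hF hc => acyclic_of_exp (h3 F hF hc), h5,
    not_union_of_robust h1 h5⟩

end Pool.Agent.Results.MP_af28a5_co.NoBooleanPartition
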