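import Pool.Agent.Lib.MP_af28a5_co.Ball

/-!
# Shellable balls without a partition with subcomplex bottoms

The definitions `IsComplex`, `boundary`, `Acyclic`, `link`, `IsJAcyclic` and
`IsUnionOfIntervals` are in `Pool/Agent/Lib/MP_af28a5_co/Defs.lean`, the definition
`IsUnionWithComplexBottoms` in `Pool/Agent/Lib/MP_af28a5_co/Defs2.lean`, the definition
`IsShelling` in `Pool/Agent/Lib/MP_af28a5_co/Defs3.lean`.
-/

set_option autoImplicit false

namespace Pool.Agent.Results.MP_af28a5_co.ShellableBalls

open Pool.Agent.Lib.MP_af28a5_co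

universe u

/-- For every `j ≥ 1` there is a simplicial complex `Δ` of dimension `j + 2` with vertices in a
set of `j + 8` elements with a shelling `L` such that every set of `j + 2` vertices is contained
in at most two facets (hence `Δ` is a ball), which is `j`-acyclic over every field and a disjoint
union of intervals of length `j + 1`, but not a disjoint union of intervals of length `j + 1` whose
bottoms form a subcomplex. -/
theorem result (j : ℕ) (hj : 1 ≤ j) :
    ∃ (Δ : Finset (Finset (Fin (j + 8)))) (L : List (Finset (Fin (j + 8)))),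
      IsComplex Δ ∧ IsShelling (j + 3) Δ L ∧
      (∀ F : Finset (Fin (j + 8)), F.card = j + 2 → (L.filter (fun T => F ⊆ T)).length ≤ 2) ∧
      (∀ (k : Type u) [Field k], IsJAcyclic k j Δ) ∧
      IsUnionOfIntervals (j + 1) Δ ∧ ¬ IsUnionWithComplexBottoms (j + 1) Δ := by
  obtain ⟨i, rfl⟩ : ∃ i, j = 1 + i := ⟨j - 1, by omega⟩
  have h := Ball.exists_ball i
  rw [show 9 + i = 1 + i + 8 by omega, show 4 + i = 1 + i + 3 by omega,
    show 2 + i = 1 + i + 1 by omega] at h
  obtain ⟨Δ, L, h1, h2, h3, h4, h5, h6⟩ := h
  exact ⟨Δ, L, h1, h2, fun F hF => h3 F (by omega),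
    fun k _ F hF hc => acyclic_of_exp (h4 F hF hc), h5, not_union_of_viol h1 h6⟩

end Pool.Agent.Results.MP_af28a5_co.ShellableBalls
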